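import Mathlib
import Pool.Agent.P.MP_9f8894_lc.Main
import Pool.Agent.P.MP_9f8894_lc.Hg.Neg

namespace Pool.Agent.Results.MP_9f8894_lc.NoCoCE

open Pool.Agent.P.MP_9f8894_lc

/-- A Boolean algebra with a copy on the natural numbers whose atomic diagram is low_n for every
n from 20 on, such that no naming of a generating family by natural numbers has a computably
enumerable set of true inequations. -/
theorem result : ∃ (B : Type) (_ : BooleanAlgebra B) (e : ℕ ≃ B),
    (∀ n, 20 ≤ n → Hg.Low n (Hg.diag fun k => some (e k))) ∧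
    ∀ f : ℕ → Option B, (∀ x, ∃ t : Hg.Tm, t.val f = some x) →
      ¬ REPred fun m => 2 * m + 1 ∈ Hg.diag f := by
  obtain ⟨T, Y, e, hlow, h1, h2, h3, hno⟩ := main_tree
  have : Infinite (TopologicalSpace.Clopens (XT T)) := Infinite.of_injective e e.injective
  refine ⟨_, inferInstance, e, fun n hn => Hg.low_of (Hg.ci_diag e h1 h2 h3) hlow hn,
    fun f hf h => ?_⟩
  obtain ⟨g, hg⟩ := Hg.copy_of_re f hf h
  exact hno g hg

end Pool.Agent.Results.MP_9f8894_lc.NoCoCE
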